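import Mathlib

/-!
A triple of real symmetric `3 × 3` matrices whose Clifford spectrum consists of exactly
five points.
-/

namespace Pool.Agent.Results.MP_fa5fea_an.FivePoints

/-- `γ` is a family of `d` Hermitian `k × k` matrices (`k ≥ 1`) satisfying the Clifford relations
`γ j * γ l + γ l * γ j = 2 δ_{jl} I` and without common invariant subspaces of `ℂ ^ k` other than
`0` and `ℂ ^ k` (an irreducible representation of the Clifford relations). -/
structure IsIrredClifford {d k : ℕ} (γ : Fin d → Matrix (Fin k) (Fin k) ℂ) : Prop where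
  pos : 0 < k
  isHermitian : ∀ j, (γ j).IsHermitian
  relation : ∀ j l, γ j * γ l + γ l * γ j = if j = l then (2 : ℂ) • 1 else 0
  irreducible : ∀ W : Submodule ℂ (Fin k → ℂ),
    (∀ j, ∀ w ∈ W, (γ j).mulVec w ∈ W) → W = ⊥ ∨ W = ⊤

/-- The spectral localizer `∑ j, (A j - x j • I) ⊗ γ j`. -/
noncomputable def localizer {n d k : ℕ} (γ : Fin d → Matrix (Fin k) (Fin k) ℂ)
    (A : Fin d → Matrix (Fin n) (Fin n) ℂ) (x : Fin d → ℝ) :
    Matrix (Fin n × Fin k) (Fin n × Fin k) ℂ :=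
  ∑ j, Matrix.kronecker (A j - ((x j : ℝ) : ℂ) • (1 : Matrix (Fin n) (Fin n) ℂ)) (γ j)

/-- The Clifford spectrum: the set of all `x ∈ ℝ ^ d` for which the spectral localizer is
not invertible. -/
def cliffordSpectrum {n d k : ℕ} (γ : Fin d → Matrix (Fin k) (Fin k) ℂ)
    (A : Fin d → Matrix (Fin n) (Fin n) ℂ) : Set (Fin d → ℝ) :=
  {x | ¬ IsUnit (localizer γ A x)}

/-- The three real symmetric matrices `E₂₃ + E₃₂`, `E₁₃ + E₃₁`, `E₁₂ + E₂₁`. -/
def exampleTriple : Fin 3 → Matrix (Fin 3) (Fin 3) ℂ :=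
  ![!![0, 0, 0; 0, 0, 1; 0, 1, 0], !![0, 0, 1; 0, 0, 0; 1, 0, 0], !![0, 1, 0; 1, 0, 0; 0, 0, 0]]

/-! ### The real polynomial -/

/-- The polynomial cutting out the spectrum: `r² (1 + r²)² - 16 x y z`, `r² = x² + y² + z²`. -/
noncomputable def q (x y z : ℝ) : ℝ :=
  (x ^ 2 + y ^ 2 + z ^ 2) * (1 + (x ^ 2 + y ^ 2 + z ^ 2)) ^ 2 - 16 * (x * y * z)

lemma amgm (a b c : ℝ) (ha : 0 ≤ a) (hb : 0 ≤ b) (hc : 0 ≤ c) :
    27 * (a * b * c) ≤ (a + b + c) ^ 3 := by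
  have h1 : 0 ≤ (a + b + c) * ((a - b) ^ 2 + (b - c) ^ 2 + (c - a) ^ 2) := by positivity
  have h2 : 0 ≤ a * (b - c) ^ 2 + b * (c - a) ^ 2 + c * (a - b) ^ 2 := by positivity
  nlinarith [h1, h2]

lemma amgm_eq (a b c : ℝ) (ha : 0 ≤ a) (hb : 0 ≤ b) (hc : 0 ≤ c) (hpos : 0 < a + b + c)
    (h : (a + b + c) ^ 3 ≤ 27 * (a * b * c)) : a = b ∧ b = c := by
  have h2 : 0 ≤ a * (b - c) ^ 2 + b * (c - a) ^ 2 + c * (a - b) ^ 2 := by positivity
  have h1 : (a + b + c) * ((a - b) ^ 2 + (b - c) ^ 2 + (c - a) ^ 2) ≤ 0 := by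
    nlinarith [h2]
  have h3 : (a - b) ^ 2 + (b - c) ^ 2 + (c - a) ^ 2 ≤ 0 := by
    by_contra hcon
    push Not at hcon
    have := mul_pos hpos hcon
    linarith
  constructor
  · nlinarith [sq_nonneg (a - b), sq_nonneg (b - c), sq_nonneg (c - a)]
  · nlinarith [sq_nonneg (a - b), sq_nonneg (b - c), sq_nonneg (c - a)]

lemma key_poly (t : ℝ) : 27 * (1 + t) ^ 4 - 256 * t = (3 * t - 1) ^ 2 * (3 * t ^ 2 + 14 * t + 27) := by
  ring

lemma q_nonneg (x y z : ℝ) : 0 ≤ q x y z := by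
  unfold q
  set t := x ^ 2 + y ^ 2 + z ^ 2 with ht
  have ht0 : 0 ≤ t := by positivity
  have h := amgm (x ^ 2) (y ^ 2) (z ^ 2) (by positivity) (by positivity) (by positivity)
  rw [← ht] at h
  have hk : 0 ≤ t ^ 2 * ((3 * t - 1) ^ 2 * (3 * t ^ 2 + 14 * t + 27)) := by positivity
  rw [← key_poly] at hk
  have h2 : (16 * (x * y * z)) ^ 2 ≤ (t * (1 + t) ^ 2) ^ 2 := by nlinarith [h, hk]
  have h3 : 0 ≤ t * (1 + t) ^ 2 := by positivity
  have := abs_le_of_sq_le_sq h2 h3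
  have h5 := le_abs_self (16 * (x * y * z))
  linarith

lemma q_eq_zero {x y z : ℝ} (h : q x y z = 0) :
    (x = 0 ∧ y = 0 ∧ z = 0) ∨ (x = 1/3 ∧ y = 1/3 ∧ z = 1/3) ∨ (x = 1/3 ∧ y = -1/3 ∧ z = -1/3) ∨
    (x = -1/3 ∧ y = 1/3 ∧ z = -1/3) ∨ (x = -1/3 ∧ y = -1/3 ∧ z = 1/3) := by
  unfold q at h
  obtain ⟨t, ht⟩ : ∃ t, t = x ^ 2 + y ^ 2 + z ^ 2 := ⟨_, rfl⟩
  rw [← ht] at h
  have ht0 : 0 ≤ t := by rw [ht]; positivity
  rcases ht0.eq_or_lt with h0 | hpos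
  · left
    have hx := sq_nonneg x
    have hy := sq_nonneg y
    have hz := sq_nonneg z
    refine ⟨?_, ?_, ?_⟩ <;> (rw [← sq_eq_zero_iff]; linarith)
  · right
    have ham := amgm (x ^ 2) (y ^ 2) (z ^ 2) (by positivity) (by positivity) (by positivity)
    rw [← ht] at ham
    have hsq : 256 * (x ^ 2 * y ^ 2 * z ^ 2) = t ^ 2 * (1 + t) ^ 4 := by
      have : t * (1 + t) ^ 2 = 16 * (x * y * z) := by linarith
      calc 256 * (x ^ 2 * y ^ 2 * z ^ 2) = (16 * (x * y * z)) ^ 2 := by ring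
        _ = (t * (1 + t) ^ 2) ^ 2 := by rw [this]
        _ = _ := by ring
    have h1 : t ^ 2 * ((3 * t - 1) ^ 2 * (3 * t ^ 2 + 14 * t + 27)) ≤ 0 := by
      rw [← key_poly]; nlinarith [ham, hsq]
    have h2 : (3 * t - 1) ^ 2 * (3 * t ^ 2 + 14 * t + 27) ≤ 0 := by
      by_contra hcon
      push Not at hcon
      have := mul_pos (pow_pos hpos 2) hcon
      linarith
    have h3 : (3 * t - 1) ^ 2 ≤ 0 := by
      by_contra hcon
      push Not at hcon
      have h4 : 0 < 3 * t ^ 2 + 14 * t + 27 := by positivity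
      have := mul_pos hcon h4
      linarith
    have h4 : t = 1 / 3 := by
      have : (3 * t - 1) ^ 2 = 0 := le_antisymm h3 (sq_nonneg _)
      have := pow_eq_zero_iff (two_ne_zero) |>.mp this
      linarith
    have hprod : x * y * z = 1 / 27 := by rw [h4] at h; linarith
    have heq := amgm_eq (x ^ 2) (y ^ 2) (z ^ 2) (by positivity) (by positivity) (by positivity)
      (by rw [← ht]; exact hpos) (by
        rw [← ht, h4]
        have : x ^ 2 * y ^ 2 * z ^ 2 = (1/27) ^ 2 := by rw [← hprod]; ring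
        rw [this]; norm_num)
    obtain ⟨e1, e2⟩ := heq
    have hx2 : x ^ 2 = (1/3) ^ 2 := by linarith
    have hy2 : y ^ 2 = (1/3) ^ 2 := by linarith
    rcases sq_eq_sq_iff_eq_or_eq_neg.mp hx2 with hx | hx <;>
      rcases sq_eq_sq_iff_eq_or_eq_neg.mp hy2 with hy | hy
    · left; refine ⟨hx, hy, ?_⟩; rw [hx, hy] at hprod; linarith
    · right; left; refine ⟨hx, by linarith, ?_⟩; rw [hx, hy] at hprod; linarith
    · right; right; left; refine ⟨by linarith, hy, ?_⟩; rw [hx, hy] at hprod; linarith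
    · right; right; right; refine ⟨by linarith, by linarith, ?_⟩; rw [hx, hy] at hprod; linarith


section Kernel

variable {V : Type*} [AddCommGroup V] [Module ℂ V]
  (T1 T2 T3 : V →ₗ[ℂ] V)
  (h11 : ∀ v, T1 (T1 v) = v) (h22 : ∀ v, T2 (T2 v) = v) (h33 : ∀ v, T3 (T3 v) = v)
  (h21 : ∀ v, T2 (T1 v) = - T1 (T2 v)) (h31 : ∀ v, T3 (T1 v) = - T1 (T3 v))
  (h32 : ∀ v, T3 (T2 v) = - T2 (T3 v))

/-- first block row of the localizer -/
def row0 (x y z : ℂ) (v0 v1 v2 : V) : V := T3 v1 + T2 v2 - (x • T1 v0 + y • T2 v0 + z • T3 v0)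
/-- second block row of the localizer -/
def row1 (x y z : ℂ) (v0 v1 v2 : V) : V := T3 v0 + T1 v2 - (x • T1 v1 + y • T2 v1 + z • T3 v1)
/-- third block row of the localizer -/
def row2 (x y z : ℂ) (v0 v1 v2 : V) : V := T2 v0 + T1 v1 - (x • T1 v2 + y • T2 v2 + z • T3 v2)

include h11 h22 h33 h21 h31 h32 in
lemma sq0 (x y z : ℂ) (v0 v1 v2 : V) :
    row0 T1 T2 T3 x y z (row0 T1 T2 T3 x y z v0 v1 v2) (row1 T1 T2 T3 x y z v0 v1 v2)
      (row2 T1 T2 T3 x y z v0 v1 v2) =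
    (3 + (x^2+y^2+z^2)) • v0 - (2 * z) • v1 - (2 * y) • v2 - T1 (T1 v0 + T2 v1 + T3 v2) := by
  simp only [row0, row1, row2, map_add, map_sub, map_smul, h11, h22, h33, h21, h31, h32]
  module

include h11 h22 h33 h21 h31 h32 in
lemma sq1 (x y z : ℂ) (v0 v1 v2 : V) :
    row1 T1 T2 T3 x y z (row0 T1 T2 T3 x y z v0 v1 v2) (row1 T1 T2 T3 x y z v0 v1 v2)
      (row2 T1 T2 T3 x y z v0 v1 v2) =
    (3 + (x^2+y^2+z^2)) • v1 - (2 * z) • v0 - (2 * x) • v2 - T2 (T1 v0 + T2 v1 + T3 v2) := by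
  simp only [row0, row1, row2, map_add, map_sub, map_smul, h11, h22, h33, h21, h31, h32]
  module

include h11 h22 h33 h21 h31 h32 in
lemma sq2 (x y z : ℂ) (v0 v1 v2 : V) :
    row2 T1 T2 T3 x y z (row0 T1 T2 T3 x y z v0 v1 v2) (row1 T1 T2 T3 x y z v0 v1 v2)
      (row2 T1 T2 T3 x y z v0 v1 v2) =
    (3 + (x^2+y^2+z^2)) • v2 - (2 * y) • v0 - (2 * x) • v1 - T3 (T1 v0 + T2 v1 + T3 v2) := by
  simp only [row0, row1, row2, map_add, map_sub, map_smul, h11, h22, h33, h21, h31, h32]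
  module

include h11 h22 h33 h21 h31 h32 in
lemma kernel_zero (x y z : ℂ) (v0 v1 v2 : V)
    (e0 : row0 T1 T2 T3 x y z v0 v1 v2 = 0)
    (e1 : row1 T1 T2 T3 x y z v0 v1 v2 = 0)
    (e2 : row2 T1 T2 T3 x y z v0 v1 v2 = 0)
    (hq : (x ^ 2 + y ^ 2 + z ^ 2) * (1 + (x ^ 2 + y ^ 2 + z ^ 2)) ^ 2 - 16 * (x * y * z) ≠ 0)
    (hD : (3 + (x ^ 2 + y ^ 2 + z ^ 2)) ^ 3 - 4 * (x ^ 2 + y ^ 2 + z ^ 2) * (3 + (x ^ 2 + y ^ 2 + z ^ 2))
      - 16 * (x * y * z) ≠ 0) :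
    v0 = 0 ∧ v1 = 0 ∧ v2 = 0 := by
  have s0 := sq0 T1 T2 T3 h11 h22 h33 h21 h31 h32 x y z v0 v1 v2
  have s1 := sq1 T1 T2 T3 h11 h22 h33 h21 h31 h32 x y z v0 v1 v2
  have s2 := sq2 T1 T2 T3 h11 h22 h33 h21 h31 h32 x y z v0 v1 v2
  have z0 : row0 T1 T2 T3 x y z (0 : V) 0 0 = 0 := by simp [row0]
  have z1 : row1 T1 T2 T3 x y z (0 : V) 0 0 = 0 := by simp [row1]
  have z2 : row2 T1 T2 T3 x y z (0 : V) 0 0 = 0 := by simp [row2]
  rw [e0, e1, e2] at s0 s1 s2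
  rw [z0] at s0
  rw [z1] at s1
  rw [z2] at s2
  obtain ⟨s, hs⟩ : ∃ s, s = T1 v0 + T2 v1 + T3 v2 := ⟨_, rfl⟩
  rw [← hs] at s0 s1 s2
  obtain ⟨τ, hτ⟩ : ∃ τ, τ = 3 + (x ^ 2 + y ^ 2 + z ^ 2) := ⟨_, rfl⟩
  rw [← hτ] at s0 s1 s2 hD
  have d0 : (τ ^ 3 - 4 * (x ^ 2 + y ^ 2 + z ^ 2) * τ - 16 * (x * y * z)) • v0 =
      (τ ^ 2 - 4 * x ^ 2) • T1 s + (2 * z * τ + 4 * x * y) • T2 s + (4 * x * z + 2 * y * τ) • T3 s := by
    linear_combination (norm := module) (-(τ ^ 2 - 4 * x ^ 2)) • s0 - (2 * z * τ + 4 * x * y) • s1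
      - (4 * x * z + 2 * y * τ) • s2
  have d1 : (τ ^ 3 - 4 * (x ^ 2 + y ^ 2 + z ^ 2) * τ - 16 * (x * y * z)) • v1 =
      (2 * z * τ + 4 * x * y) • T1 s + (τ ^ 2 - 4 * y ^ 2) • T2 s + (2 * x * τ + 4 * y * z) • T3 s := by
    linear_combination (norm := module) (-(2 * z * τ + 4 * x * y)) • s0 - (τ ^ 2 - 4 * y ^ 2) • s1
      - (2 * x * τ + 4 * y * z) • s2
  have d2 : (τ ^ 3 - 4 * (x ^ 2 + y ^ 2 + z ^ 2) * τ - 16 * (x * y * z)) • v2 =
      (4 * x * z + 2 * y * τ) • T1 s + (2 * x * τ + 4 * y * z) • T2 s + (τ ^ 2 - 4 * z ^ 2) • T3 s := by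
    linear_combination (norm := module) (-(4 * x * z + 2 * y * τ)) • s0 - (2 * x * τ + 4 * y * z) • s1
      - (τ ^ 2 - 4 * z ^ 2) • s2
  have t0 := congrArg T1 d0
  have t1 := congrArg T2 d1
  have t2 := congrArg T3 d2
  simp only [map_add, map_smul, h11, h22, h33, h21, h31, h32] at t0 t1 t2
  have hzero : ((x ^ 2 + y ^ 2 + z ^ 2) * (1 + (x ^ 2 + y ^ 2 + z ^ 2)) ^ 2
      - 16 * (x * y * z)) • s = 0 := by
    have e : ((x ^ 2 + y ^ 2 + z ^ 2) * (1 + (x ^ 2 + y ^ 2 + z ^ 2)) ^ 2 - 16 * (x * y * z)) =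
       (τ ^ 3 - 4 * (x ^ 2 + y ^ 2 + z ^ 2) * τ - 16 * (x * y * z)) -
        (3 * τ ^ 2 - 4 * (x ^ 2 + y ^ 2 + z ^ 2)) := by
      rw [hτ]; ring
    rw [e, sub_smul, sub_eq_zero]
    conv_lhs => rw [hs]
    linear_combination (norm := module) t0 + t1 + t2
  have hs0 : s = 0 := by
    rcases smul_eq_zero.mp hzero with h | h
    · exact absurd h hq
    · exact h
  rw [hs0] at d0 d1 d2
  simp only [map_zero, smul_zero, add_zero, smul_eq_zero] at d0 d1 d2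
  exact ⟨d0.resolve_left hD, d1.resolve_left hD, d2.resolve_left hD⟩

include h11 h22 h33 h21 h31 h32 in
lemma kernel_nonzero (x y z : ℂ) (s : V) (hs : s ≠ 0)
    (hq : (x ^ 2 + y ^ 2 + z ^ 2) * (1 + (x ^ 2 + y ^ 2 + z ^ 2)) ^ 2 - 16 * (x * y * z) = 0)
    (ht : 3 * (3 + (x ^ 2 + y ^ 2 + z ^ 2)) ^ 2 - 4 * (x ^ 2 + y ^ 2 + z ^ 2) ≠ 0) :
    ∃ v0 v1 v2 : V, (v0 ≠ 0 ∨ v1 ≠ 0 ∨ v2 ≠ 0) ∧ row0 T1 T2 T3 x y z v0 v1 v2 = 0 ∧
      row1 T1 T2 T3 x y z v0 v1 v2 = 0 ∧ row2 T1 T2 T3 x y z v0 v1 v2 = 0 := by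
  obtain ⟨τ, hτ⟩ : ∃ τ, τ = 3 + (x ^ 2 + y ^ 2 + z ^ 2) := ⟨_, rfl⟩
  obtain ⟨v0, hv0⟩ : ∃ v0, v0 = (τ ^ 2 - 4 * x ^ 2) • T1 s + (2 * z * τ + 4 * x * y) • T2 s
    + (4 * x * z + 2 * y * τ) • T3 s := ⟨_, rfl⟩
  obtain ⟨v1, hv1⟩ : ∃ v1, v1 = (2 * z * τ + 4 * x * y) • T1 s + (τ ^ 2 - 4 * y ^ 2) • T2 s
    + (2 * x * τ + 4 * y * z) • T3 s := ⟨_, rfl⟩
  obtain ⟨v2, hv2⟩ : ∃ v2, v2 = (4 * x * z + 2 * y * τ) • T1 s + (2 * x * τ + 4 * y * z) • T2 s
    + (τ ^ 2 - 4 * z ^ 2) • T3 s := ⟨_, rfl⟩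
  have hsum : T1 v0 + T2 v1 + T3 v2 = (3 * τ ^ 2 - 4 * (x ^ 2 + y ^ 2 + z ^ 2)) • s := by
    rw [hv0, hv1, hv2]
    simp only [map_add, map_smul, h11, h22, h33, h21, h31, h32]
    module
  have hne : v0 ≠ 0 ∨ v1 ≠ 0 ∨ v2 ≠ 0 := by
    by_contra hcon
    push Not at hcon
    obtain ⟨c0, c1, c2⟩ := hcon
    rw [c0, c1, c2] at hsum
    simp only [map_zero, add_zero] at hsum
    rcases smul_eq_zero.mp hsum.symm with h | h
    · apply ht
      rw [← hτ]; exact h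
    · exact hs h
  have hq' : τ ^ 3 - 4 * (x ^ 2 + y ^ 2 + z ^ 2) * τ - 16 * (x * y * z) =
      3 * τ ^ 2 - 4 * (x ^ 2 + y ^ 2 + z ^ 2) := by
    rw [hτ]; linear_combination hq
  have s0 := sq0 T1 T2 T3 h11 h22 h33 h21 h31 h32 x y z v0 v1 v2
  have s1 := sq1 T1 T2 T3 h11 h22 h33 h21 h31 h32 x y z v0 v1 v2
  have s2 := sq2 T1 T2 T3 h11 h22 h33 h21 h31 h32 x y z v0 v1 v2
  rw [hsum, ← hτ, map_smul, ← hq'] at s0 s1 s2
  have k0 : row0 T1 T2 T3 x y z (row0 T1 T2 T3 x y z v0 v1 v2) (row1 T1 T2 T3 x y z v0 v1 v2)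
      (row2 T1 T2 T3 x y z v0 v1 v2) = 0 := by
    rw [s0, hv0, hv1, hv2]; module
  have k1 : row1 T1 T2 T3 x y z (row0 T1 T2 T3 x y z v0 v1 v2) (row1 T1 T2 T3 x y z v0 v1 v2)
      (row2 T1 T2 T3 x y z v0 v1 v2) = 0 := by
    rw [s1, hv0, hv1, hv2]; module
  have k2 : row2 T1 T2 T3 x y z (row0 T1 T2 T3 x y z v0 v1 v2) (row1 T1 T2 T3 x y z v0 v1 v2)
      (row2 T1 T2 T3 x y z v0 v1 v2) = 0 := by
    rw [s2, hv0, hv1, hv2]; module
  by_cases hw : row0 T1 T2 T3 x y z v0 v1 v2 = 0 ∧ row1 T1 T2 T3 x y z v0 v1 v2 = 0 ∧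
      row2 T1 T2 T3 x y z v0 v1 v2 = 0
  · exact ⟨v0, v1, v2, hne, hw⟩
  · refine ⟨_, _, _, ?_, k0, k1, k2⟩
    by_contra hcon
    push Not at hcon
    exact hw hcon

end Kernel

/-! ### The localizer -/

section Loc

variable {k : ℕ} (γ : Fin 3 → Matrix (Fin k) (Fin k) ℂ)

lemma localizer_mulVec0 (x : Fin 3 → ℝ) (v : Fin 3 × Fin k → ℂ) (p : Fin k) :
    ((localizer γ exampleTriple x).mulVec v) (0, p) =
      row0 (γ 0).mulVecLin (γ 1).mulVecLin (γ 2).mulVecLin (x 0 : ℂ) (x 1 : ℂ) (x 2 : ℂ)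
        (fun q => v (0, q)) (fun q => v (1, q)) (fun q => v (2, q)) p := by
  simp only [localizer, Matrix.mulVec, dotProduct, Fintype.sum_prod_type, Fin.sum_univ_three,
    Matrix.kroneckerMap_apply, Matrix.kronecker, Matrix.add_apply, exampleTriple, row0, Matrix.mulVecLin_apply,
    Pi.add_apply, Pi.sub_apply, Pi.smul_apply, Matrix.sub_apply, Matrix.smul_apply, smul_eq_mul,
    Finset.mul_sum, ← Finset.sum_add_distrib, ← Finset.sum_sub_distrib]
  refine Finset.sum_congr rfl fun q _ => ?_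
  simp
  ring

lemma localizer_mulVec1 (x : Fin 3 → ℝ) (v : Fin 3 × Fin k → ℂ) (p : Fin k) :
    ((localizer γ exampleTriple x).mulVec v) (1, p) =
      row1 (γ 0).mulVecLin (γ 1).mulVecLin (γ 2).mulVecLin (x 0 : ℂ) (x 1 : ℂ) (x 2 : ℂ)
        (fun q => v (0, q)) (fun q => v (1, q)) (fun q => v (2, q)) p := by
  simp only [localizer, Matrix.mulVec, dotProduct, Fintype.sum_prod_type, Fin.sum_univ_three,
    Matrix.kroneckerMap_apply, Matrix.kronecker, Matrix.add_apply, exampleTriple, row1, Matrix.mulVecLin_apply,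
    Pi.add_apply, Pi.sub_apply, Pi.smul_apply, Matrix.sub_apply, Matrix.smul_apply, smul_eq_mul,
    Finset.mul_sum, ← Finset.sum_add_distrib, ← Finset.sum_sub_distrib]
  refine Finset.sum_congr rfl fun q _ => ?_
  simp
  ring

lemma localizer_mulVec2 (x : Fin 3 → ℝ) (v : Fin 3 × Fin k → ℂ) (p : Fin k) :
    ((localizer γ exampleTriple x).mulVec v) (2, p) =
      row2 (γ 0).mulVecLin (γ 1).mulVecLin (γ 2).mulVecLin (x 0 : ℂ) (x 1 : ℂ) (x 2 : ℂ)
        (fun q => v (0, q)) (fun q => v (1, q)) (fun q => v (2, q)) p := by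
  simp only [localizer, Matrix.mulVec, dotProduct, Fintype.sum_prod_type, Fin.sum_univ_three,
    Matrix.kroneckerMap_apply, Matrix.kronecker, Matrix.add_apply, exampleTriple, row2, Matrix.mulVecLin_apply,
    Pi.add_apply, Pi.sub_apply, Pi.smul_apply, Matrix.sub_apply, Matrix.smul_apply, smul_eq_mul,
    Finset.mul_sum, ← Finset.sum_add_distrib, ← Finset.sum_sub_distrib]
  refine Finset.sum_congr rfl fun q _ => ?_
  simp
  ring

variable {γ}

lemma sq_eq_one (hγ : IsIrredClifford γ) (j : Fin 3) (v : Fin k → ℂ) :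
    (γ j).mulVecLin ((γ j).mulVecLin v) = v := by
  have h := hγ.relation j j
  rw [if_pos rfl] at h
  have h2 : γ j * γ j = 1 := by
    have : (2 : ℂ) • (γ j * γ j) = (2 : ℂ) • 1 := by rw [← h, two_smul]
    exact smul_right_injective _ (two_ne_zero) this
  simp [Matrix.mulVec_mulVec, h2]

lemma anti (hγ : IsIrredClifford γ) {j l : Fin 3} (hjl : j ≠ l) (v : Fin k → ℂ) :
    (γ j).mulVecLin ((γ l).mulVecLin v) = - (γ l).mulVecLin ((γ j).mulVecLin v) := by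
  have h := hγ.relation j l
  rw [if_neg hjl] at h
  have h2 : γ j * γ l = - (γ l * γ j) := eq_neg_of_add_eq_zero_left h
  simp only [Matrix.mulVecLin_apply, Matrix.mulVec_mulVec, h2, Matrix.neg_mulVec]

lemma mem_iff (hγ : IsIrredClifford γ) (x : Fin 3 → ℝ) :
    x ∈ cliffordSpectrum γ exampleTriple ↔ q (x 0) (x 1) (x 2) = 0 := by
  have hdet : x ∈ cliffordSpectrum γ exampleTriple ↔
      ∃ v : Fin 3 × Fin k → ℂ, v ≠ 0 ∧ (localizer γ exampleTriple x).mulVec v = 0 := by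
    rw [Matrix.exists_mulVec_eq_zero_iff]
    simp only [cliffordSpectrum, Set.mem_ofPred_eq, Matrix.isUnit_iff_isUnit_det, isUnit_iff_ne_zero,
      ne_eq, not_not]
  have hqC : (((x 0 : ℂ)) ^ 2 + (x 1 : ℂ) ^ 2 + (x 2 : ℂ) ^ 2) *
      (1 + ((x 0 : ℂ) ^ 2 + (x 1 : ℂ) ^ 2 + (x 2 : ℂ) ^ 2)) ^ 2 - 16 * ((x 0 : ℂ) * (x 1 : ℂ) * (x 2 : ℂ))
      = ((q (x 0) (x 1) (x 2) : ℝ) : ℂ) := by
    simp only [q]; push_cast; ring
  rw [hdet]
  constructor
  · rintro ⟨v, hv, hL⟩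
    by_contra hq
    have hqpos : 0 < q (x 0) (x 1) (x 2) := lt_of_le_of_ne (q_nonneg _ _ _) (Ne.symm hq)
    have hD : (3 + ((x 0 : ℂ) ^ 2 + (x 1 : ℂ) ^ 2 + (x 2 : ℂ) ^ 2)) ^ 3
        - 4 * ((x 0 : ℂ) ^ 2 + (x 1 : ℂ) ^ 2 + (x 2 : ℂ) ^ 2) *
          (3 + ((x 0 : ℂ) ^ 2 + (x 1 : ℂ) ^ 2 + (x 2 : ℂ) ^ 2))
        - 16 * ((x 0 : ℂ) * (x 1 : ℂ) * (x 2 : ℂ)) ≠ 0 := by
      have h1 : (3 + ((x 0) ^ 2 + (x 1) ^ 2 + (x 2) ^ 2)) ^ 3
        - 4 * ((x 0) ^ 2 + (x 1) ^ 2 + (x 2) ^ 2) * (3 + ((x 0) ^ 2 + (x 1) ^ 2 + (x 2) ^ 2))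
        - 16 * ((x 0) * (x 1) * (x 2)) =
          q (x 0) (x 1) (x 2) + (3 * (3 + ((x 0) ^ 2 + (x 1) ^ 2 + (x 2) ^ 2)) ^ 2 -
            4 * ((x 0) ^ 2 + (x 1) ^ 2 + (x 2) ^ 2)) := by
        simp only [q]; ring
      have h2 : 0 < 3 * (3 + ((x 0) ^ 2 + (x 1) ^ 2 + (x 2) ^ 2)) ^ 2 -
            4 * ((x 0) ^ 2 + (x 1) ^ 2 + (x 2) ^ 2) := by
        nlinarith [sq_nonneg (x 0), sq_nonneg (x 1), sq_nonneg (x 2)]
      have h3 : (3 + ((x 0) ^ 2 + (x 1) ^ 2 + (x 2) ^ 2)) ^ 3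
        - 4 * ((x 0) ^ 2 + (x 1) ^ 2 + (x 2) ^ 2) * (3 + ((x 0) ^ 2 + (x 1) ^ 2 + (x 2) ^ 2))
        - 16 * ((x 0) * (x 1) * (x 2)) ≠ 0 := by
        rw [h1]; positivity
      exact_mod_cast h3
    have hker := kernel_zero (γ 0).mulVecLin (γ 1).mulVecLin (γ 2).mulVecLin
      (sq_eq_one hγ 0) (sq_eq_one hγ 1) (sq_eq_one hγ 2)
      (anti hγ (by decide)) (anti hγ (by decide)) (anti hγ (by decide))
      (x 0 : ℂ) (x 1 : ℂ) (x 2 : ℂ)
      (fun q => v (0, q)) (fun q => v (1, q)) (fun q => v (2, q))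
      (by ext p; rw [← localizer_mulVec0, hL]; rfl)
      (by ext p; rw [← localizer_mulVec1, hL]; rfl)
      (by ext p; rw [← localizer_mulVec2, hL]; rfl)
      (by rw [hqC]; exact_mod_cast hq) hD
    apply hv
    funext ⟨a, p⟩
    fin_cases a
    · exact congrFun hker.1 p
    · exact congrFun hker.2.1 p
    · exact congrFun hker.2.2 p
  · intro hq
    have hk := hγ.pos
    obtain ⟨v0, v1, v2, hne, e0, e1, e2⟩ := kernel_nonzero (γ 0).mulVecLin (γ 1).mulVecLin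
      (γ 2).mulVecLin
      (sq_eq_one hγ 0) (sq_eq_one hγ 1) (sq_eq_one hγ 2)
      (anti hγ (by decide)) (anti hγ (by decide)) (anti hγ (by decide))
      (x 0 : ℂ) (x 1 : ℂ) (x 2 : ℂ) (fun _ => (1 : ℂ))
      (by
        intro h
        have := congrFun h ⟨0, hk⟩
        simp at this)
      (by rw [hqC, hq]; simp)
      (by
        have h2 : 0 < 3 * (3 + ((x 0) ^ 2 + (x 1) ^ 2 + (x 2) ^ 2)) ^ 2 -
            4 * ((x 0) ^ 2 + (x 1) ^ 2 + (x 2) ^ 2) := by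
          nlinarith [sq_nonneg (x 0), sq_nonneg (x 1), sq_nonneg (x 2)]
        exact_mod_cast h2.ne')
    refine ⟨fun ap => (![v0, v1, v2] ap.1) ap.2, ?_, ?_⟩
    · intro h
      have h0 : v0 = 0 := by ext p; exact congrFun h (0, p)
      have h1 : v1 = 0 := by ext p; exact congrFun h (1, p)
      have h2 : v2 = 0 := by ext p; exact congrFun h (2, p)
      rcases hne with h | h | h
      · exact h h0
      · exact h h1
      · exact h h2
    · funext ⟨a, p⟩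
      fin_cases a
      · have := localizer_mulVec0 γ x (fun ap => (![v0, v1, v2] ap.1) ap.2) p
        exact this.trans (congrFun e0 p)
      · have := localizer_mulVec1 γ x (fun ap => (![v0, v1, v2] ap.1) ap.2) p
        exact this.trans (congrFun e1 p)
      · have := localizer_mulVec2 γ x (fun ap => (![v0, v1, v2] ap.1) ap.2) p
        exact this.trans (congrFun e2 p)

end Loc

/-- The Pauli matrices. -/
noncomputable def pauli : Fin 3 → Matrix (Fin 2) (Fin 2) ℂ :=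
  ![!![0, 1; 1, 0], !![0, -Complex.I; Complex.I, 0], !![1, 0; 0, -1]]

lemma pauli_irred : IsIrredClifford pauli where
  pos := by norm_num
  isHermitian := by
    intro j
    fin_cases j <;> ext a b <;> fin_cases a <;> fin_cases b <;> simp [pauli]
  relation := by
    intro j l
    fin_cases j <;> fin_cases l <;> ext a b <;> fin_cases a <;> fin_cases b <;>
      simp [pauli] <;> norm_num
  irreducible := by
    intro W hW
    by_cases h : W = ⊥
    · exact Or.inl h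
    · right
      obtain ⟨w, hwW, hw⟩ := Submodule.exists_mem_ne_zero_of_ne_bot h
      have hX := hW 0
      have hZ := hW 2
      have hXe : ∀ u : Fin 2 → ℂ, (pauli 0).mulVec u = ![u 1, u 0] := by
        intro u; ext i; fin_cases i <;> simp [pauli, Matrix.mulVec, dotProduct, Fin.sum_univ_two]
      have hZe : ∀ u : Fin 2 → ℂ, (pauli 2).mulVec u = ![u 0, -u 1] := by
        intro u; ext i; fin_cases i <;> simp [pauli, Matrix.mulVec, dotProduct, Fin.sum_univ_two]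
      have key : (![1, 0] : Fin 2 → ℂ) ∈ W ∧ (![0, 1] : Fin 2 → ℂ) ∈ W := by
        by_cases h0 : w 0 = 0
        · have h1 : w 1 ≠ 0 := by
            intro h1
            apply hw
            ext i
            fin_cases i
            · exact h0
            · exact h1
          have m1 : (![0, 1] : Fin 2 → ℂ) ∈ W := by
            have := W.smul_mem (w 1)⁻¹ hwW
            convert this using 1
            ext i
            fin_cases i
            · simp [h0]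
            · simp [h1]
          refine ⟨?_, m1⟩
          have := hX _ m1
          rw [hXe] at this
          simpa using this
        · have m0 : (![1, 0] : Fin 2 → ℂ) ∈ W := by
            have e1 := W.add_mem hwW (hZ w hwW)
            have := W.smul_mem (2 * w 0)⁻¹ e1
            convert this using 1
            rw [hZe]
            ext i
            fin_cases i
            · change (1 : ℂ) = (2 * w 0)⁻¹ * (w 0 + w 0)
              field_simp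
              norm_num
            · change (0 : ℂ) = (2 * w 0)⁻¹ * (w 1 + -w 1)
              simp
          refine ⟨m0, ?_⟩
          have := hX _ m0
          rw [hXe] at this
          simpa using this
      rw [eq_top_iff]
      intro u _
      have : u = u 0 • (![1, 0] : Fin 2 → ℂ) + u 1 • (![0, 1] : Fin 2 → ℂ) := by
        ext i
        fin_cases i <;> simp
      rw [this]
      exact W.add_mem (W.smul_mem _ key.1) (W.smul_mem _ key.2)

lemma exampleTriple_hermitian (j : Fin 3) : (exampleTriple j).IsHermitian := by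
  fin_cases j <;> ext a b <;> fin_cases a <;> fin_cases b <;> simp [exampleTriple]

lemma spectrum_eq {k : ℕ} {γ : Fin 3 → Matrix (Fin k) (Fin k) ℂ} (hγ : IsIrredClifford γ) :
    cliffordSpectrum γ exampleTriple =
      {![0, 0, 0], ![1/3, 1/3, 1/3], ![1/3, -1/3, -1/3], ![-1/3, 1/3, -1/3], ![-1/3, -1/3, 1/3]} := by
  ext x
  rw [mem_iff hγ]
  have hext : ∀ a b c : ℝ, x = ![a, b, c] ↔ x 0 = a ∧ x 1 = b ∧ x 2 = c := by
    intro a b c
    constructor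
    · rintro rfl
      simp
    · rintro ⟨h0, h1, h2⟩
      ext i
      fin_cases i
      · exact h0
      · exact h1
      · exact h2
  simp only [Set.mem_insert_iff, Set.mem_singleton_iff, hext]
  constructor
  · exact fun h => q_eq_zero h
  · rintro (⟨h0, h1, h2⟩ | ⟨h0, h1, h2⟩ | ⟨h0, h1, h2⟩ | ⟨h0, h1, h2⟩ | ⟨h0, h1, h2⟩) <;>
      rw [h0, h1, h2] <;> norm_num [q]

lemma five_card :
    (({![0, 0, 0], ![1/3, 1/3, 1/3], ![1/3, -1/3, -1/3], ![-1/3, 1/3, -1/3], ![-1/3, -1/3, 1/3]} :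
      Set (Fin 3 → ℝ))).ncard = 5 := by
  have hne : ∀ a b c a' b' c' : ℝ, (a ≠ a' ∨ b ≠ b' ∨ c ≠ c') →
      (![a, b, c] : Fin 3 → ℝ) ≠ ![a', b', c'] := by
    intro a b c a' b' c' h heq
    have e0 := congrFun heq 0
    have e1 := congrFun heq 1
    have e2 := congrFun heq 2
    simp at e0 e1 e2
    rcases h with h | h | h
    · exact h e0
    · exact h e1
    · exact h e2
  rw [Set.ncard_insert_of_notMem, Set.ncard_insert_of_notMem, Set.ncard_insert_of_notMem,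
    Set.ncard_insert_of_notMem, Set.ncard_singleton]
  all_goals
    simp only [Set.mem_insert_iff, Set.mem_singleton_iff, not_or]
    repeat' constructor
  all_goals
    apply hne
    norm_num

/-- The three real symmetric `3 × 3` matrices `exampleTriple` have, for every irreducible
representation `γ` of the Clifford relations, a Clifford spectrum that is finite, consists of
exactly the five listed points, and so has more than `3` elements. -/
theorem result :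
    (∀ j, (exampleTriple j).IsHermitian) ∧
    (∃ (k : ℕ) (γ : Fin 3 → Matrix (Fin k) (Fin k) ℂ), IsIrredClifford γ) ∧
    ∀ (k : ℕ) (γ : Fin 3 → Matrix (Fin k) (Fin k) ℂ), IsIrredClifford γ →
      (cliffordSpectrum γ exampleTriple).Finite ∧
      (cliffordSpectrum γ exampleTriple).ncard = 5 ∧
      3 < (cliffordSpectrum γ exampleTriple).ncard ∧
      cliffordSpectrum γ exampleTriple =
        {![0, 0, 0], ![1/3, 1/3, 1/3], ![1/3, -1/3, -1/3], ![-1/3, 1/3, -1/3],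
          ![-1/3, -1/3, 1/3]} := by
  refine ⟨exampleTriple_hermitian, ⟨2, pauli, pauli_irred⟩, fun k γ hγ => ?_⟩
  rw [spectrum_eq hγ, five_card]
  exact ⟨by simp, rfl, by norm_num, rfl⟩

end Pool.Agent.Results.MP_fa5fea_an.FivePoints
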